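import Mathlib

/-!
Boxes in dense subsets of product sets.
-/

set_option autoImplicit false

namespace Pool.Agent.H351R3.Sums

open Finset

theorem box (r : ℕ) : ∀ (N : ℕ) (B : Finset (Fin (r + 1) → Fin N)),
    1 < ((B.card : ℝ) / (2 * (N : ℝ) ^ (r + 1))) ^ (2 ^ r) * N →
    ∃ p q : Fin (r + 1) → Fin N, (∀ j, p j ≠ q j) ∧
      ∀ S : Finset (Fin (r + 1)), (fun j => if j ∈ S then q j else p j) ∈ B := by
  classical
  induction r with
  | zero =>
    intro N B hB
    have hN : (0 : ℝ) < N := by
      rcases Nat.eq_zero_or_pos N with h | h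
      · have h0 : (N : ℝ) = 0 := by rw [h]; simp
        rw [h0, mul_zero] at hB
        linarith
      · exact_mod_cast h
    have h1 : (2 : ℝ) < B.card := by
      have : ((B.card : ℝ) / (2 * (N : ℝ) ^ (0 + 1))) ^ (2 ^ 0) * N = (B.card : ℝ) / 2 := by
        have e : (N : ℝ) ^ (0 + 1) = N := by simp
        rw [e, pow_zero, pow_one]
        field_simp
      rw [this] at hB
      linarith
    have h2 : 1 < B.card := by
      have : (1 : ℝ) < B.card := by linarith
      exact_mod_cast this
    obtain ⟨f, hf, g, hg, hfg⟩ := Finset.one_lt_card.1 h2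
    have hss : Subsingleton (Fin (0 + 1)) := (inferInstance : Subsingleton (Fin 1))
    refine ⟨f, g, ?_, ?_⟩
    · intro j hj
      apply hfg
      funext i
      rw [Subsingleton.elim i j]
      exact hj
    · intro S
      by_cases h0 : (0 : Fin (0 + 1)) ∈ S
      · have : (fun j => if j ∈ S then g j else f j) = g := by
          funext j
          rw [Subsingleton.elim j 0, if_pos h0]
        rw [this]; exact hg
      · have : (fun j => if j ∈ S then g j else f j) = f := by
          funext j
          rw [Subsingleton.elim j 0, if_neg h0]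
        rw [this]; exact hf
  | succ r ih =>
    intro N B hB
    have hN : (0 : ℝ) < N := by
      rcases Nat.eq_zero_or_pos N with h | h
      · have h0 : (N : ℝ) = 0 := by rw [h]; simp
        rw [h0, mul_zero] at hB
        linarith
      · exact_mod_cast h
    set β : ℝ := (B.card : ℝ) / (2 * (N : ℝ) ^ (r + 1 + 1)) with hβ
    have hβ0 : 0 ≤ β := by positivity
    have hcardB : (B.card : ℝ) = 2 * (N : ℝ) ^ (r + 1 + 1) * β := by
      rw [hβ]; field_simp
    have hβ1 : β ≤ 1 := by
      rw [hβ, div_le_one (by positivity)]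
      have h1 : B.card ≤ N ^ (r + 1 + 1) := by
        have := Finset.card_le_univ B
        rwa [Fintype.card_fun, Fintype.card_fin, Fintype.card_fin] at this
      have h2 : (B.card : ℝ) ≤ (N : ℝ) ^ (r + 1 + 1) := by exact_mod_cast h1
      have h3 : (0 : ℝ) ≤ (N : ℝ) ^ (r + 1 + 1) := by positivity
      linarith
    have hβN : 1 < β * N := by
      have h1 : β ^ (2 ^ (r + 1)) ≤ β := by
        calc β ^ (2 ^ (r + 1)) ≤ β ^ 1 := pow_le_pow_of_le_one hβ0 hβ1 (Nat.one_le_two_pow)
          _ = β := pow_one β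
      exact hB.trans_le (mul_le_mul_of_nonneg_right h1 hN.le)
    have hβpos : 0 < β := by
      by_contra h
      have : β = 0 := le_antisymm (not_lt.1 h) hβ0
      rw [this, zero_mul] at hβN
      linarith
    clear_value β
    set Bx : Fin N → Finset (Fin (r + 1) → Fin N) := fun x =>
      univ.filter (fun g => (Fin.cons x g : Fin (r + 1 + 1) → Fin N) ∈ B) with hBx
    -- the sum over the fibres
    have hind : ∀ x g, (if g ∈ Bx x then (1 : ℝ) else 0) =
        if (Fin.cons x g : Fin (r + 1 + 1) → Fin N) ∈ B then 1 else 0 := by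
      intro x g
      simp [hBx]
    have hsumB : ∑ g : Fin (r + 1) → Fin N, ∑ x : Fin N, (if g ∈ Bx x then (1 : ℝ) else 0) =
        B.card := by
      have h1 : (B.card : ℝ) = ∑ f : Fin (r + 1 + 1) → Fin N, if f ∈ B then (1 : ℝ) else 0 := by
        rw [Finset.sum_ite_mem, Finset.univ_inter]
        simp
      have h2 : ∑ f : Fin (r + 1 + 1) → Fin N, (if f ∈ B then (1 : ℝ) else 0) =
          ∑ x : Fin N, ∑ g : Fin (r + 1) → Fin N,
            if (Fin.cons x g : Fin (r + 1 + 1) → Fin N) ∈ B then (1 : ℝ) else 0 := by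
        rw [← (Fin.consEquiv (fun _ => Fin N)).sum_comp, Fintype.sum_prod_type]
        rfl
      rw [h1, h2, Finset.sum_comm]
      apply Finset.sum_congr rfl
      intro x _
      apply Finset.sum_congr rfl
      intro g _
      exact hind x g
    have hcs : (B.card : ℝ) ^ 2 ≤ (N : ℝ) ^ (r + 1) *
        ∑ g : Fin (r + 1) → Fin N, (∑ x : Fin N, (if g ∈ Bx x then (1 : ℝ) else 0)) ^ 2 := by
      have h1 := sq_sum_le_card_mul_sum_sq (s := (univ : Finset (Fin (r + 1) → Fin N)))
        (f := fun g => ∑ x : Fin N, (if g ∈ Bx x then (1 : ℝ) else 0))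
      rw [hsumB, Finset.card_univ, Fintype.card_fun, Fintype.card_fin, Fintype.card_fin] at h1
      exact_mod_cast h1
    have hsq : ∑ g : Fin (r + 1) → Fin N, (∑ x : Fin N, (if g ∈ Bx x then (1 : ℝ) else 0)) ^ 2 =
        ∑ x : Fin N, ∑ y : Fin N, ((Bx x ∩ Bx y).card : ℝ) := by
      have h1 : ∀ x y, ((Bx x ∩ Bx y).card : ℝ) = ∑ g : Fin (r + 1) → Fin N,
          (if g ∈ Bx x then (1 : ℝ) else 0) * (if g ∈ Bx y then (1 : ℝ) else 0) := by
        intro x y
        have h2 : ∀ g : Fin (r + 1) → Fin N,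
            (if g ∈ Bx x then (1 : ℝ) else 0) * (if g ∈ Bx y then (1 : ℝ) else 0) =
            if g ∈ Bx x ∩ Bx y then 1 else 0 := by
          intro g
          by_cases h3 : g ∈ Bx x <;> by_cases h4 : g ∈ Bx y <;> simp [h3, h4]
        simp only [h2]
        rw [Finset.sum_ite_mem, Finset.univ_inter]
        simp
      simp only [h1]
      have h2 : ∑ x : Fin N, ∑ y : Fin N, ∑ g : Fin (r + 1) → Fin N,
          (if g ∈ Bx x then (1 : ℝ) else 0) * (if g ∈ Bx y then (1 : ℝ) else 0) =
          ∑ g : Fin (r + 1) → Fin N, ∑ x : Fin N, ∑ y : Fin N,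
          (if g ∈ Bx x then (1 : ℝ) else 0) * (if g ∈ Bx y then (1 : ℝ) else 0) := by
        have h3 : ∀ x : Fin N, ∑ y : Fin N, ∑ g : Fin (r + 1) → Fin N,
          (if g ∈ Bx x then (1 : ℝ) else 0) * (if g ∈ Bx y then (1 : ℝ) else 0) =
          ∑ g : Fin (r + 1) → Fin N, ∑ y : Fin N,
          (if g ∈ Bx x then (1 : ℝ) else 0) * (if g ∈ Bx y then (1 : ℝ) else 0) :=
          fun x => Finset.sum_comm
        simp only [h3]
        exact Finset.sum_comm
      rw [h2]
      apply Finset.sum_congr rfl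
      intro g _
      rw [sq, Finset.sum_mul]
      apply Finset.sum_congr rfl
      intro x _
      rw [Finset.mul_sum]
    have hdiag : ∑ x : Fin N, ((Bx x ∩ Bx x).card : ℝ) = B.card := by
      rw [← hsumB, Finset.sum_comm]
      apply Finset.sum_congr rfl
      intro x _
      rw [Finset.inter_self, Finset.sum_ite_mem, Finset.univ_inter]
      simp
    -- two fibres with a large intersection
    have hex : ∃ x y, x ≠ y ∧ 2 * β ^ 2 * (N : ℝ) ^ (r + 1) ≤ ((Bx x ∩ Bx y).card : ℝ) := by
      by_contra hcon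
      push Not at hcon
      have h1 : ∑ x : Fin N, ∑ y : Fin N, ((Bx x ∩ Bx y).card : ℝ) ≤
          B.card + (N : ℝ) * (N * (2 * β ^ 2 * (N : ℝ) ^ (r + 1))) := by
        have h2 : ∀ x, ∑ y : Fin N, ((Bx x ∩ Bx y).card : ℝ) ≤ ((Bx x ∩ Bx x).card : ℝ) +
            N * (2 * β ^ 2 * (N : ℝ) ^ (r + 1)) := by
          intro x
          calc ∑ y : Fin N, ((Bx x ∩ Bx y).card : ℝ)
              ≤ ∑ y : Fin N, ((if y = x then ((Bx x ∩ Bx x).card : ℝ) else 0) +
                2 * β ^ 2 * (N : ℝ) ^ (r + 1)) := by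
                apply Finset.sum_le_sum
                intro y _
                by_cases hyx : y = x
                · rw [if_pos hyx, hyx]
                  have : (0 : ℝ) ≤ 2 * β ^ 2 * (N : ℝ) ^ (r + 1) := by positivity
                  linarith
                · rw [if_neg hyx, zero_add]
                  exact (hcon x y (fun h => hyx h.symm)).le
            _ = ((Bx x ∩ Bx x).card : ℝ) + N * (2 * β ^ 2 * (N : ℝ) ^ (r + 1)) := by
                rw [Finset.sum_add_distrib, Finset.sum_ite_eq' univ x, if_pos (Finset.mem_univ _),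
                  Finset.sum_const, Finset.card_univ, Fintype.card_fin, nsmul_eq_mul]
        calc ∑ x : Fin N, ∑ y : Fin N, ((Bx x ∩ Bx y).card : ℝ)
            ≤ ∑ x : Fin N, (((Bx x ∩ Bx x).card : ℝ) + N * (2 * β ^ 2 * (N : ℝ) ^ (r + 1))) :=
              Finset.sum_le_sum (fun x _ => h2 x)
          _ = B.card + (N : ℝ) * (N * (2 * β ^ 2 * (N : ℝ) ^ (r + 1))) := by
              rw [Finset.sum_add_distrib, hdiag, Finset.sum_const, Finset.card_univ,
                Fintype.card_fin, nsmul_eq_mul]
      rw [hsq] at hcs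
      have h3 := hcs.trans (mul_le_mul_of_nonneg_left h1 (by positivity))
      rw [hcardB] at h3
      have hP : (0 : ℝ) < (N : ℝ) ^ (r + 1) := by positivity
      set P : ℝ := (N : ℝ) ^ (r + 1) with hPdef
      have e1 : (N : ℝ) ^ (r + 1 + 1) = P * N := by rw [hPdef, pow_succ]
      rw [e1] at h3
      -- 4 P² N² β² ≤ P (2 P N β + 2 N² β² P)
      have h4 : (2 * (P * N) * β) ^ 2 - P * (2 * (P * N) * β + N * (N * (2 * β ^ 2 * P))) =
          2 * P ^ 2 * N * β * (β * N - 1) := by ring
      have h5 : 0 < 2 * P ^ 2 * N * β * (β * N - 1) := by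
        have : 0 < β * N - 1 := by linarith
        positivity
      linarith
    obtain ⟨x, y, hxy, hcard⟩ := hex
    have hnew : 1 < (((Bx x ∩ Bx y).card : ℝ) / (2 * (N : ℝ) ^ (r + 1))) ^ (2 ^ r) * N := by
      have h1 : β ^ 2 ≤ ((Bx x ∩ Bx y).card : ℝ) / (2 * (N : ℝ) ^ (r + 1)) := by
        rw [le_div_iff₀ (by positivity)]
        linarith
      have h2 : β ^ (2 ^ (r + 1)) ≤ (((Bx x ∩ Bx y).card : ℝ) / (2 * (N : ℝ) ^ (r + 1))) ^ (2 ^ r) := by
        calc β ^ (2 ^ (r + 1)) = (β ^ 2) ^ (2 ^ r) := by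
              rw [← pow_mul]
              congr 1
              ring
          _ ≤ _ := pow_le_pow_left₀ (by positivity) h1 _
      exact hB.trans_le (mul_le_mul_of_nonneg_right h2 hN.le)
    obtain ⟨p, q, hpq, hcube⟩ := ih N (Bx x ∩ Bx y) hnew
    refine ⟨Fin.cons x p, Fin.cons y q, ?_, ?_⟩
    · intro j
      refine Fin.cases ?_ (fun j => ?_) j
      · rw [Fin.cons_zero, Fin.cons_zero]; exact hxy
      · rw [Fin.cons_succ, Fin.cons_succ]; exact hpq j
    · intro S
      have h1 := hcube (univ.filter (fun j : Fin (r + 1) => j.succ ∈ S))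
      rw [Finset.mem_inter] at h1
      have h2 : (fun j => if j ∈ S then (Fin.cons y q : Fin (r + 1 + 1) → Fin N) j else
          (Fin.cons x p : Fin (r + 1 + 1) → Fin N) j) =
          Fin.cons (if 0 ∈ S then y else x) (fun j => if j ∈ univ.filter
            (fun j : Fin (r + 1) => j.succ ∈ S) then q j else p j) := by
        funext j
        refine Fin.cases ?_ (fun j => ?_) j
        · simp only [Fin.cons_zero]
        · simp only [Fin.cons_succ, Finset.mem_filter, Finset.mem_univ, true_and]
      rw [h2]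
      by_cases h0 : (0 : Fin (r + 1 + 1)) ∈ S
      · rw [if_pos h0]
        have := h1.2
        rw [hBx, Finset.mem_filter] at this
        exact this.2
      · rw [if_neg h0]
        have := h1.1
        rw [hBx, Finset.mem_filter] at this
        exact this.2

end Pool.Agent.H351R3.Sums
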