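import Mathlib
import Pool.Agent.H351R3.Sums.Box
import Pool.Agent.H351R3.Log.Dens2

/-!
Sums of logarithms, one from each of several families: all but a power-saving proportion.
-/

set_option autoImplicit false

namespace Pool.Agent.H351R3.Sums

open Finset Module MvPolynomial Pool.Agent.H301R2.SSE Pool.Agent.H297R2 Pool.Agent.H351R3.Log

/-- The saving. -/
noncomputable def sav (R N : ℕ) : ℝ := (N : ℝ) ^ (-(1 / 2 ^ (R - 1) : ℝ))

theorem sav_nonneg (R N : ℕ) : 0 ≤ sav R N := Real.rpow_nonneg (Nat.cast_nonneg N) _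

/-- No box means a power saving. -/
theorem card_le_of_no_box {R N : ℕ} (hR : 1 ≤ R) (B : Finset (Fin R → Fin N))
    (h : ¬ ∃ p q : Fin R → Fin N, (∀ j, p j ≠ q j) ∧
      ∀ S : Finset (Fin R), (fun j => if j ∈ S then q j else p j) ∈ B) :
    (B.card : ℝ) ≤ 2 * (N : ℝ) ^ R * sav R N := by
  obtain ⟨r, rfl⟩ : ∃ r, R = r + 1 := ⟨R - 1, by omega⟩
  rcases Nat.eq_zero_or_pos N with hN | hN
  · have hB : B.card = 0 := by
      rw [Finset.card_eq_zero, Finset.eq_empty_iff_forall_notMem]
      intro f _
      have := (f 0).2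
      omega
    rw [hB]
    have := sav_nonneg (r + 1) N
    push_cast
    positivity
  have hN' : (0 : ℝ) < N := by exact_mod_cast hN
  have h1 : ((B.card : ℝ) / (2 * (N : ℝ) ^ (r + 1))) ^ (2 ^ r) * N ≤ 1 := by
    by_contra hcon
    exact h (box r N B (not_le.1 hcon))
  set β : ℝ := (B.card : ℝ) / (2 * (N : ℝ) ^ (r + 1)) with hβ
  have hβ0 : 0 ≤ β := by positivity
  have h2 : β ^ (2 ^ r) ≤ (N : ℝ)⁻¹ := by
    rw [← one_div, le_div_iff₀ hN']
    exact h1
  have h3 : β ≤ sav (r + 1) N := by
    have hm : (2 ^ r : ℕ) ≠ 0 := by positivity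
    have h4 : (β ^ (2 ^ r)) ^ (((2 ^ r : ℕ) : ℝ)⁻¹) = β := Real.pow_rpow_inv_natCast hβ0 hm
    have h5 : (β ^ (2 ^ r)) ^ (((2 ^ r : ℕ) : ℝ)⁻¹) ≤ ((N : ℝ)⁻¹) ^ (((2 ^ r : ℕ) : ℝ)⁻¹) :=
      Real.rpow_le_rpow (by positivity) h2 (by positivity)
    rw [h4] at h5
    refine h5.trans (le_of_eq ?_)
    rw [sav, Real.inv_rpow hN'.le, ← Real.rpow_neg hN'.le]
    congr 2
    rw [Nat.add_sub_cancel]
    push_cast
    rw [one_div]
  have h6 : (B.card : ℝ) = 2 * (N : ℝ) ^ (r + 1) * β := by
    rw [hβ]; field_simp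
  rw [h6]
  exact mul_le_mul_of_nonneg_left h3 (by positivity)

theorem log_mem {V : Submodule QB ℂ} (hLV : Lt ≤ V) {z : ℂ} (hz : IsAlgebraic ℚ (Complex.exp z)) :
    z ∈ V := hLV (Lt_log hz)

/-- One sum. -/
theorem count_one (σ : Type) [Fintype σ] (D c : ℕ) : ∃ R₀ : ℕ, 1 ≤ R₀ ∧ ∀ R ≥ R₀, ∀ N : ℕ,
    ∀ V : Submodule QB ℂ, Lt ≤ V → KBd V c →
    ∀ (par : σ → Prop) (t : σ → ℂ), NLP V par D t → ∀ lam : Fin R → Fin N → ℂ,
    (∀ j i, IsAlgebraic ℚ (Complex.exp (lam j i))) →
    LinearIndependent ℚ (fun p : Fin R × Fin N => lam p.1 p.2) →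
    ∀ B : Finset (Fin R → Fin N),
    (∀ f ∈ B, ¬ NLP V (opar par) D (fun o : Option σ => o.elim (∑ j, lam j (f j)) t)) →
    (B.card : ℝ) ≤ 2 * (N : ℝ) ^ R * sav R N := by
  classical
  obtain ⟨r, hr⟩ := key2 (κ := QB) (C := ℂ) σ D c
  refine ⟨r + 1, by omega, fun R hR N V hLV hV par t ht lam halg hli B hbad => ?_⟩
  apply card_le_of_no_box (by omega)
  rintro ⟨p, q, hpq, hcube⟩
  have hrR : r ≤ R := by omega
  have hlamV : ∀ j i, lam j i ∈ V := fun j i => log_mem hLV (halg j i)
  set w : Fin R → V := fun j => ⟨lam j (q j) - lam j (p j),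
    V.sub_mem (hlamV _ _) (hlamV _ _)⟩ with hw
  have hwli : LinearIndependent QB w := by
    rw [Fintype.linearIndependent_iff]
    intro c hc j₀
    have hc' : ∑ j, (c j : ℂ) * (lam j (q j) - lam j (p j)) = 0 := by
      have := congrArg (fun v : V => (v : ℂ)) hc
      push_cast at this
      rw [← this]
      apply Finset.sum_congr rfl
      intro i _
      rfl
    have h1 := baker (fun p : Fin R × Fin N => lam p.1 p.2) (fun p => halg _ _) hli
      (fun x => if x.2 = q x.1 then (c x.1 : ℂ) else if x.2 = p x.1 then -(c x.1 : ℂ) else 0) (by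
        intro x
        split_ifs
        · exact (mem_algebraicClosure_iff).1 (c x.1).2
        · exact ((mem_algebraicClosure_iff).1 (c x.1).2).neg
        · exact isAlgebraic_zero) (by
        rw [Fintype.sum_prod_type]
        refine Eq.trans ?_ hc'
        apply Finset.sum_congr rfl
        intro j _
        simp only
        have e1 : ∀ i : Fin N, (if i = q j then (c j : ℂ) else if i = p j then -(c j : ℂ) else 0) *
            lam j i = (if i = q j then (c j : ℂ) * lam j (q j) else 0) +
            (if i = p j then -(c j : ℂ) * lam j (p j) else 0) := by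
          intro i
          by_cases h1 : i = q j
          · have h2 : i ≠ p j := fun h => hpq j (by rw [← h, h1])
            rw [if_pos h1, if_pos h1, if_neg h2, h1, add_zero]
          · by_cases h2 : i = p j
            · rw [if_neg h1, if_neg h1, if_pos h2, if_pos h2, h2, zero_add]
            · rw [if_neg h1, if_neg h1, if_neg h2, if_neg h2, zero_mul, add_zero]
        simp only [e1]
        rw [Finset.sum_add_distrib, Finset.sum_ite_eq', Finset.sum_ite_eq', if_pos (Finset.mem_univ _),
          if_pos (Finset.mem_univ _)]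
        ring)
    have h2 := h1 (j₀, q j₀)
    simp only [if_true] at h2
    exact_mod_cast h2
  have hwli' : LinearIndependent QB (w ∘ Fin.castLE hrR) := hwli.comp _ (Fin.castLE_injective hrR)
  obtain ⟨S, hS⟩ := hr V hV par t ht ⟨∑ j, lam j (p j), V.sum_mem fun j _ => hlamV _ _⟩ _ hwli'
  set S' : Finset (Fin R) := S.map (Fin.castLEEmb hrR) with hS'
  apply hbad _ (hcube S')
  have e1 : (∑ j, lam j (if j ∈ S' then q j else p j)) =
      (((⟨∑ j, lam j (p j), V.sum_mem fun j _ => hlamV _ _⟩ : V) +
        ∑ i ∈ S, (w ∘ Fin.castLE hrR) i : V) : ℂ) := by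
    push_cast
    have e2 : ∀ j, lam j (if j ∈ S' then q j else p j) = lam j (p j) +
        (if j ∈ S' then lam j (q j) - lam j (p j) else 0) := by
      intro j
      by_cases h : j ∈ S'
      · rw [if_pos h, if_pos h]; ring
      · rw [if_neg h, if_neg h, add_zero]
    simp only [e2]
    rw [Finset.sum_add_distrib, Finset.sum_ite_mem, Finset.univ_inter, hS', Finset.sum_map]
    rfl
  have e3 : (fun o : Option σ => o.elim (∑ j, lam j ((fun j => if j ∈ S' then q j else p j) j)) t) =
      (fun o : Option σ => o.elim (((⟨∑ j, lam j (p j), V.sum_mem fun j _ => hlamV _ _⟩ : V) +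
        ∑ i ∈ S, (w ∘ Fin.castLE hrR) i : V) : ℂ) t) := by
    rw [← e1]
  rw [e3]
  exact hS

open Classical in
/-- Several sums. -/
theorem count_tuples (k : ℕ) : ∀ (σ : Type) [Fintype σ] (D c : ℕ), ∃ R₀ : ℕ, 1 ≤ R₀ ∧
    ∀ R ≥ R₀, ∀ N : ℕ, ∀ V : Submodule QB ℂ, Lt ≤ V → KBd V c →
    ∀ (par : σ → Prop) (t : σ → ℂ), NLP V par D t → ∀ lam : Fin k → Fin R → Fin N → ℂ,
    (∀ a j i, IsAlgebraic ℚ (Complex.exp (lam a j i))) →
    LinearIndependent ℚ (fun p : Fin k × Fin R × Fin N => lam p.1 p.2.1 p.2.2) →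
    (((Finset.univ : Finset (Fin k → Fin R → Fin N)).filter (fun f =>
      ¬ NLP V (spar (Fin k) par) D (Sum.elim t (fun a => ∑ j, lam a j (f a j))))).card : ℝ) ≤
      k * (2 * (N : ℝ) ^ (k * R) * sav R N) := by
  induction k with
  | zero =>
    intro σ _ D c
    refine ⟨1, le_rfl, fun R _ N V _ _ par t ht lam _ _ => ?_⟩
    rw [Finset.filter_false_of_mem]
    · simp
    · intro n _
      push Not
      rw [← NLP.reindex_iff V _ (Equiv.sumEmpty σ (Fin 0)).symm]
      exact ht
  | succ k ih =>
    intro σ _ D c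
    obtain ⟨R₁, hR₁1, hR₁⟩ := count_one σ D c
    obtain ⟨R₂, hR₂1, hR₂⟩ := ih (Option σ) D c
    refine ⟨max R₁ R₂, le_trans hR₁1 (le_max_left _ _),
      fun R hR N V hLV hV par t ht lam halg hli => ?_⟩
    set bad : (Fin (k + 1) → Fin R → Fin N) → Prop := fun f =>
      ¬ NLP V (spar (Fin (k + 1)) par) D (Sum.elim t (fun a => ∑ j, lam a j (f a j))) with hbad
    set B := (Finset.univ : Finset (Fin (k + 1) → Fin R → Fin N)).filter bad with hB
    set A := (Finset.univ : Finset (Fin R → Fin N)).filter (fun g =>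
      ¬ NLP V (opar par) D (fun o : Option σ => o.elim (∑ j, lam 0 j (g j)) t)) with hA
    have hAcard : (A.card : ℝ) ≤ 2 * (N : ℝ) ^ R * sav R N := by
      refine hR₁ R (le_trans (le_max_left _ _) hR) N V hLV hV par t ht (lam 0) (halg 0) ?_ A ?_
      · exact hli.comp (fun p : Fin R × Fin N => ((0 : Fin (k + 1)), p.1, p.2))
          (fun a b h => by simpa [Prod.ext_iff] using h)
      · intro g hg; rw [hA, Finset.mem_filter] at hg; exact hg.2
    have hfib : B.card = ∑ g : Fin R → Fin N, (B.filter (fun f => f 0 = g)).card :=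
      Finset.card_eq_sum_card_fiberwise (fun f _ => Finset.mem_univ _)
    have hle : ∀ g, (B.filter (fun f => f 0 = g)).card ≤
        ((Finset.univ : Finset (Fin k → Fin R → Fin N)).filter (fun m => bad (Fin.cons g m))).card := by
      intro g
      apply Finset.card_le_card_of_injOn (fun f => Fin.tail f)
      · intro f hf
        have hf' : f ∈ B.filter (fun f => f 0 = g) := hf
        rw [Finset.mem_filter, hB, Finset.mem_filter] at hf'
        have hcons : (Fin.cons g (Fin.tail f) : Fin (k + 1) → Fin R → Fin N) = f := by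
          rw [← hf'.2]; exact Fin.cons_self_tail f
        show Fin.tail f ∈ _
        rw [Finset.mem_coe, Finset.mem_filter]
        refine ⟨Finset.mem_univ _, ?_⟩
        rw [hcons]
        exact hf'.1.2
      · intro n hn m hm h
        have hn' : n ∈ B.filter (fun f => f 0 = g) := hn
        have hm' : m ∈ B.filter (fun f => f 0 = g) := hm
        rw [Finset.mem_filter] at hn' hm'
        rw [← Fin.cons_self_tail n, ← Fin.cons_self_tail m, hn'.2, hm'.2]
        have : Fin.tail n = Fin.tail m := h
        rw [this]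
    have hgood : ∀ g, g ∉ A →
        (((Finset.univ : Finset (Fin k → Fin R → Fin N)).filter
          (fun m => bad (Fin.cons g m))).card : ℝ) ≤ k * (2 * (N : ℝ) ^ (k * R) * sav R N) := by
      intro g hgA
      have hta : NLP V (opar par) D (fun o : Option σ => o.elim (∑ j, lam 0 j (g j)) t) := by
        by_contra hcon
        apply hgA
        rw [hA, Finset.mem_filter]
        exact ⟨Finset.mem_univ _, hcon⟩
      have h1 := hR₂ R (le_trans (le_max_right _ _) hR) N V hLV hV (opar par) _ hta
        (fun a => lam a.succ) (fun a => halg a.succ)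
        (hli.comp (fun p : Fin k × Fin R × Fin N => (p.1.succ, p.2.1, p.2.2))
          (fun a b h => by
            rw [Prod.mk.injEq] at h
            exact Prod.ext (Fin.succ_injective _ h.1) h.2))
      refine le_trans (le_of_eq ?_) h1
      congr 2
      apply Finset.filter_congr
      intro m _
      rw [hbad]
      simp only
      rw [not_iff_not, ← NLP.reindex_iff V _ (optEquiv σ k)]
      have hpar : (spar (Fin (k + 1)) par) ∘ optEquiv σ k = spar (Fin k) (opar par) := by
        funext s
        rcases s with (_ | i) | j <;> simp [optEquiv, spar, opar]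
      have : (Sum.elim t (fun a => ∑ j, lam a j ((Fin.cons g m : Fin (k + 1) → Fin R → Fin N) a j))) ∘
          optEquiv σ k =
          Sum.elim (fun o : Option σ => o.elim (∑ j, lam 0 j (g j)) t)
            (fun a => ∑ j, lam a.succ j (m a j)) := by
        funext s
        rcases s with (_ | i) | j <;> simp [optEquiv]
      rw [this, hpar]
    have htriv : ∀ g, (((Finset.univ : Finset (Fin k → Fin R → Fin N)).filter
        (fun m => bad (Fin.cons g m))).card : ℝ) ≤ (N : ℝ) ^ (k * R) := by
      intro g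
      have h1 := Finset.card_filter_le (Finset.univ : Finset (Fin k → Fin R → Fin N))
        (fun m => bad (Fin.cons g m))
      rw [Finset.card_univ, Fintype.card_fun, Fintype.card_fun, Fintype.card_fin, Fintype.card_fin,
        Fintype.card_fin, ← pow_mul] at h1
      have h2 : (((Finset.univ : Finset (Fin k → Fin R → Fin N)).filter
        (fun m => bad (Fin.cons g m))).card : ℝ) ≤ ((N ^ (R * k) : ℕ) : ℝ) := by
        exact_mod_cast h1
      rw [mul_comm k R]
      push_cast at h2
      exact h2
    have hs0 := sav_nonneg R N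
    calc (B.card : ℝ) = ∑ g : Fin R → Fin N, ((B.filter (fun f => f 0 = g)).card : ℝ) := by
          rw [hfib]; push_cast; rfl
      _ ≤ ∑ g : Fin R → Fin N, ((if g ∈ A then (N : ℝ) ^ (k * R) else 0) +
            k * (2 * (N : ℝ) ^ (k * R) * sav R N)) := by
          apply Finset.sum_le_sum
          intro g _
          have h1 : ((B.filter (fun f => f 0 = g)).card : ℝ) ≤
            (((Finset.univ : Finset (Fin k → Fin R → Fin N)).filter
              (fun m => bad (Fin.cons g m))).card : ℝ) := by
            exact_mod_cast hle g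
          by_cases hgA : g ∈ A
          · rw [if_pos hgA]
            have h2 := htriv g
            have h3 : (0 : ℝ) ≤ k * (2 * (N : ℝ) ^ (k * R) * sav R N) := by positivity
            linarith
          · rw [if_neg hgA, zero_add]
            exact h1.trans (hgood g hgA)
      _ = (A.card : ℝ) * (N : ℝ) ^ (k * R) + (N : ℝ) ^ R * (k * (2 * (N : ℝ) ^ (k * R) * sav R N)) := by
          rw [Finset.sum_add_distrib, Finset.sum_ite_mem, Finset.univ_inter, Finset.sum_const,
            Finset.sum_const, Finset.card_univ, Fintype.card_fun, Fintype.card_fin,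
            Fintype.card_fin, nsmul_eq_mul, nsmul_eq_mul]
          push_cast
          rfl
      _ ≤ (2 * (N : ℝ) ^ R * sav R N) * (N : ℝ) ^ (k * R) +
          (N : ℝ) ^ R * (k * (2 * (N : ℝ) ^ (k * R) * sav R N)) := by gcongr
      _ = (k + 1 : ℕ) * (2 * (N : ℝ) ^ ((k + 1) * R) * sav R N) := by
          have e1 : (N : ℝ) ^ ((k + 1) * R) = (N : ℝ) ^ (k * R) * (N : ℝ) ^ R := by
            rw [← pow_add]; congr 1; ring
          rw [e1]
          push_cast
          ring

end Pool.Agent.H351R3.Sums
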